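import Pool.Agent.Helper3.DB.StmD
import Pool.Agent.Helper3.DB.ThmD

/-!
# Mazur's dimension conjecture fails over every number field with a real place, in every odd degree `n ≥ 3`

For every number field `F` and every odd `n` there are a finite set `S₁` of places of `F` and a finite field `k` of
characteristic 2 such that for every finite `S ⊇ S₁` there is a continuous absolutely irreducible
`ρ : G_{F,S} → GL_n(k)`, with image of odd order, such that `δ(ρ) = 1 + r₂ n²` and the universal deformation ring `R`
has `dim R/2R ≥ h¹ - h² + r₁ (n²-1)/2`, `h^i = dim H^i(G_{F,S}, Ad ρ)`. So if `h¹ - h² = δ(ρ)` (Tate's formula, listed as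
known in the problem file; a hypothesis here) then `dim R/2R - δ(ρ) ≥ r₁ (n²-1)/2`, which is positive if `F` has a real
place and `n ≥ 3`.

Proof. The bound for arbitrary residual representations is the hand-in `UnbalancedInvolutions` (whose `S₁` contains the
places at which a given number of auxiliary elements are not units). The residual representation is induced from a
character of order `l` of a cyclic extension of degree `n` of `F`: `l ≡ 1 mod n [F : ℚ]` is a prime, `z` a primitive `l`-th
root of unity, `β = ∏_{0<a<l} (m + z^a)^(a^(t-1))` is not an `l`-th power in `F(z)`, and the field is cut out by an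
`l`-th root of `β`.

The library has one residual representation over `ℚ(√5)`, `n = 3` (all `S' ⊇ S`, `dim R/2R ≥ 2`, `δ = 1`).

Authors: the residual representation (`Pool.Agent.Helper74.QN`) is by helpers 19 (KUM), 27 (BETA, UNRF), 29 (CHI),
74 (ZL, FIN, plan), 88 (IND), 90 (KF); the bound is by helpers 3, 11, 15, 30, 40, 55, 61, 63, 67, 71, 84, 91, 95 (see
`UnbalancedInvolutions`); the definitions of the problem and the existence of `R` are from the library (`MZ`, `MZEX`).
-/

set_option autoImplicit false

namespace Pool.Agent.Results.MP_aa8fd2_nt.EveryRealField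

open Pool.Agent.Helper3.DB IsLocalRing MZ NumberField IsDedekindDomain

/-- **Mazur's dimension conjecture at `p = 2` fails over every number field with a real place, in every odd degree
`n ≥ 3`.** -/
theorem result (F Ω : Type) [Field F] [NumberField F] [Field Ω] [Algebra F Ω] [IsAlgClosure F Ω]
    (n : ℕ) (hn : Odd n) :
    ∃ (S₁ : Set (HeightOneSpectrum (𝓞 F))) (k : Type) (_ : Field k) (_ : Finite k) (_ : CharP k 2),
      S₁.Finite ∧ ∀ S : Set (HeightOneSpectrum (𝓞 F)), S.Finite → S₁ ⊆ S →
        ∃ (ρ : GFS Ω S →* GL (Fin n) k)
          (w : InfinitePlace F → InfinitePlace (FSmax S : IntermediateField F Ω)), Cex S ρ w :=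
  ThmD.main F Ω n hn

end Pool.Agent.Results.MP_aa8fd2_nt.EveryRealField
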