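import Pool.Agent.Helper24.GF.Fin2

/-!
# Mazur's dimension conjecture fails in characteristic 0, over extensions of any signature

For every `m` there are a totally real number field `F₀` of degree `2 ^ (m + 1)` containing `√5` and
a finite set `T` of number fields of degree `3 * 2 ^ (m + 1)`, such that for every finite extension
`F` of `F₀`, of any signature, whose degree over `F₀` is not divisible by 3, or more generally into
which no field of `T` embeds, and for every finite set `S` of places of `F` which contains the places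
above 30, there is a datum `ρbar : G_{F,S} → GL_3(k)` in characteristic 2 with
`δ(ρbar) = 1 + 9 r₂(F)`, whose universal deformation ring exists and satisfies
`dim R[1/2] ≥ 2 ^ (m + 3) + 1` and `dim R/2R ≥ 2 ^ (m + 3) + 1`.

So the dimension conjecture fails over `F` as soon as `9 r₂(F) < 2 ^ (m + 3)`: over all these fields
which are totally real (for `m = 0`, over every totally real field which contains `√5` and none of
the finitely many fields of `T`), by arbitrarily large amounts, and also over fields with complex
places. The failure is in characteristic 0: already the generic fibre `R[1/2]` is too large.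

The starting results of this problem (`DimensionConjectureFails`, `AllLargerS`) treat the single
field `ℚ(√5)`, with `dim R/2R ≥ 2`.

Method. Over the layer `F₀` the universal ring is mapped to `W(k)[[x]]` with `4 [F₀ : ℚ] + 1`
variables: the complex conjugations go to `1 - 2 e` with idempotent matrices `e` of rank one with four
parameters each, and the residual representation, whose image is a 3-group, is lifted to `W(k)`. The
primes `(x_1, ..., x_r)` do not contain 2 and their preimages in `R` are different, since the entries of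
`1 - 2 e` are in the image of `R` (Burnside). Then base change: for a continuous homomorphism
`φ : H → G` with an image of finite index and `ρbar ∘ φ` absolutely irreducible, the natural map from
the universal deformation ring of `ρbar ∘ φ` to the one of `ρbar` is finite, so that the dimensions
can only increase.

Joint work: the layers `F₀` are the ones of `UnboundedFailure` (helpers 15, 9, 26, 30, 60, 64, 86, 95);
the modules of the generic fibre are by helpers 2, 5, 17, 67, 76, 81, 93.
-/

set_option autoImplicit false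

namespace Pool.Agent.Results.MP_aa8fd2_nt.GenericFibreAnySignature

open NumberField IsDedekindDomain

/-- For an algebraic closure `Ω` of `F` and a finite field `k` of characteristic 2 there are, for
each finite set `S` which contains the places above 30, a representation `ρ : G_{F,S} → GL_3(k)` and
places `w v` of `F_S` above the infinite places `v` which are data of the problem, such that
`δ(ρ) = 1 + 9 r₂(F)`, a universal deformation ring exists, and every universal deformation ring `R`
satisfies `dim R/2R ≥ D` and `dim R[1/2] ≥ D`. -/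
def DimAtLeast (F : Type) [Field F] [NumberField F] (D : ℕ) : Prop :=
  ∃ (Ω : Type) (_ : Field Ω) (_ : Algebra F Ω) (_ : IsAlgClosure F Ω)
    (k : Type) (_ : Field k) (_ : Finite k) (_ : CharP k 2),
    ∀ S : Set (HeightOneSpectrum (𝓞 F)), S.Finite →
      (∀ v : HeightOneSpectrum (𝓞 F), (30 : 𝓞 F) ∈ v.asIdeal → v ∈ S) →
      ∃ (ρ : MZ.GFS Ω S →* GL (Fin 3) k)
        (w : InfinitePlace F → InfinitePlace (MZ.FSmax S : IntermediateField F Ω)),
        MZ.IsDatum F Ω S 2 k 3 ρ w ∧
        MZ.delta S ρ w = 1 + 9 * InfinitePlace.nrComplexPlaces F ∧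
        (∃ (R : MZ.CNL 2 k) (ρu : MZ.GFS Ω S →* GL (Fin 3) R.A), MZ.IsUniversal ρ R ρu) ∧
        ∀ (R : MZ.CNL 2 k) (ρu : MZ.GFS Ω S →* GL (Fin 3) R.A), MZ.IsUniversal ρ R ρu →
          ((D : ℕ) : WithBot ℕ∞) ≤ ringKrullDim (R.A ⧸ Ideal.span {((2 : ℕ) : R.A)}) ∧
          ((D : ℕ) : WithBot ℕ∞) ≤ ringKrullDim (Localization.Away ((2 : ℕ) : R.A))

/-- **Mazur's dimension conjecture over the extensions of the layers.** -/
theorem result (m : ℕ) :
    ∃ (F₀ : Type) (_ : Field F₀) (_ : NumberField F₀)
      (T : Set (IntermediateField ℚ (AlgebraicClosure ℚ))),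
      Module.finrank ℚ F₀ = 2 ^ (m + 1) ∧ (∀ v : InfinitePlace F₀, v.IsReal) ∧
      (∃ s : F₀, s ^ 2 = 5) ∧ T.Finite ∧ (∀ N ∈ T, Module.finrank ℚ N = 3 * 2 ^ (m + 1)) ∧
      ∀ (F : Type) [Field F] [NumberField F] [Algebra F₀ F],
        (¬ 3 ∣ Module.finrank F₀ F ∨ ∀ N ∈ T, IsEmpty (N →+* F)) →
          DimAtLeast F (2 ^ (m + 3) + 1) := by
  obtain ⟨F₀, i1, i2, i3, i4, i5, i6, k, ik, iFin, iP, ρ, hdeg, hreal, ho, hirr, h27, hD⟩ :=
    Pool.Agent.Helper24.GF.layerF m
  refine ⟨F₀, i1, i2, {N | ∃ M : Subgroup ρ.range, M.index = 3 ∧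
    Pool.Agent.Helper24.BC.X.NO ρ M = N}, hdeg, hreal, ?_, ?_, ?_, ?_⟩
  · refine ⟨algebraMap MZ.F5 F₀ ⟨MZ.s5, IntermediateField.mem_adjoin_simple_self ℚ MZ.s5⟩, ?_⟩
    rw [← map_pow]
    have h5 : (⟨MZ.s5, IntermediateField.mem_adjoin_simple_self ℚ MZ.s5⟩ : MZ.F5) ^ 2 = 5 :=
      Subtype.ext MZ.s5_sq
    rw [h5, map_ofNat]
  · have h1 : Finite (Subgroup ρ.range) := by
      have : Finite ρ.range := inferInstance
      infer_instance
    refine (Set.finite_range (Pool.Agent.Helper24.BC.X.NO ρ)).subset ?_
    rintro N ⟨M, -, rfl⟩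
    exact ⟨M, rfl⟩
  · rintro N ⟨M, hM, rfl⟩
    rw [Pool.Agent.Helper24.BC.X.NO_finrank ρ ho M hM, hdeg, mul_comm]
  · intro F _ _ _ hT
    obtain ⟨a1, a2, a3⟩ := Pool.Agent.Helper24.BC.X.exists_alg (F₀ := F₀) (F := F)
    have hT' : ∀ M : Subgroup ρ.range, M.index = 3 →
        IsEmpty (Pool.Agent.Helper24.BC.X.NO ρ M →+* F) := by
      intro M hM
      rcases hT with h3 | h
      · refine ⟨fun f => h3 ?_⟩
        let _ : Algebra (Pool.Agent.Helper24.BC.X.NO ρ M) F := f.toAlgebra
        have h6 := Pool.Agent.Helper24.BC.X.NO_finrank ρ ho M hM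
        have h7 : Module.finrank ℚ (Pool.Agent.Helper24.BC.X.NO ρ M) *
            Module.finrank (Pool.Agent.Helper24.BC.X.NO ρ M) F = Module.finrank ℚ F :=
          Module.finrank_mul_finrank ℚ (Pool.Agent.Helper24.BC.X.NO ρ M) F
        have h8 : Module.finrank ℚ F₀ * Module.finrank F₀ F = Module.finrank ℚ F :=
          Module.finrank_mul_finrank ℚ F₀ F
        rw [← h8, h6, mul_assoc] at h7
        have h9 : 0 < Module.finrank ℚ F₀ := Module.finrank_pos
        exact ⟨_, (Nat.eq_of_mul_eq_mul_left h9 h7).symm⟩
      · exact h _ ⟨M, hM, rfl⟩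
    have hpow : 4 * 2 ^ (m + 1) + 1 = 2 ^ (m + 3) + 1 := by ring
    rw [hpow] at hD
    exact ⟨MZ.Om, inferInstance, a1, a2, k, ik, iFin, iP, fun S hS h30 =>
      Pool.Agent.Helper24.GF.overFF ρ ho hirr h27 _ hD hT' S hS h30⟩

end Pool.Agent.Results.MP_aa8fd2_nt.GenericFibreAnySignature
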