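import Pool.Agent.Helper3.DB.Stm4
import Pool.Agent.Helper3.DB.Thm

/-!
# Involutions and the dimension of deformation rings in characteristic 2

`G` is a profinite group, `k` a finite field of characteristic 2, `ρ : G → GL_n(k)` continuous and absolutely
irreducible, `R` a universal deformation ring, `h^i = dim H^i(G, Ad ρ)` (continuous cohomology, defined by locally
constant cocycles). If `c_1, …, c_s ∈ G` are distinct elements of order 2 for which
`H²(G, Ad ρ) → ⨁ H²(⟨c_i⟩, Ad ρ)` is surjective and `r_i` is the rank of `ρ(c_i) - 1`, then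
`dim R/2R ≥ h¹ - h² + ∑_i (2 ⌊n/2⌋ (n - ⌊n/2⌋) - 2 r_i (n - r_i))`.
Here `2 r_i (n - r_i)` is the dimension of the conjugacy class of `ρ(c_i)`, which is what the numbers `h¹, h²` count, and
`2 ⌊n/2⌋ (n - ⌊n/2⌋)` is the dimension of the scheme of all involutions `X² = 1`, at each of its points.

Proof. For the complete local ring `T = k[[X_1, …, X_s, x_1, …, x_z]] / ((ρ(c_i) + X_i)² = 1)`, `z = dim` of the
relative tangent space, a minimal ideal `J` for which there is a lift `G → GL_n(T/J)` with `c_i ↦ ρ(c_i) + X_i` is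
generated by `dim H²(G, {c_i}; Ad ρ)` elements; `T/J` is generated over the image of `R` by `n² - 1` elements; and
`dim T` is computed by an explicit chain of prime ideals.

Authors: helper3 (statements, assembly, TAN), helpers 11 (SEC), 30 (OB1, FI1), 55 (OB2), 61 (SCH), 63 (CHN, TDIM),
67 (CNT, FI3), 71 (CEN), 84 (TRING, FI2), 91 (LIM, ZORN), 95 (NAK); coefficient rings and universal deformation rings
are defined as in the library (`MZ`).
-/

set_option autoImplicit false

namespace Pool.Agent.Results.MP_aa8fd2_nt.InvolutionBound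

open Pool.Agent.Helper3.DB IsLocalRing MZ

/-- **Involutions and the dimension of deformation rings in characteristic 2.** -/
theorem result (k : Type) [Field k] [Finite k] [CharP k 2] (G : Type) [Group G] [TopologicalSpace G]
    [IsTopologicalGroup G] [CompactSpace G] [TotallyDisconnectedSpace G] (n : ℕ) (hn : 1 ≤ n)
    (ρ : G →* GL (Fin n) k) (hcont : IsOpen (ρ.ker : Set G)) (hirr : AbsIrred ρ) (hZ1 : Module.Finite k (Z1 ρ))
    (ι : Type) [Fintype ι] (c : ι → G) (hc : ∀ i, c i * c i = 1) (hc1 : ∀ i, c i ≠ 1)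
    (hinj : Function.Injective c) (hloc : LocSurj ρ c)
    (R : CNL 2 k) (ρu : G →* GL (Fin n) R.A) (hu : IsUniversal ρ R ρu) :
    ((h1 ρ + ∑ i, (2 * (n / 2) * (n - n / 2) - 2 * rk ρ (c i) * (n - rk ρ (c i))) : ℕ) : WithBot ℕ∞) ≤
      ringKrullDim (R.A ⧸ Ideal.span {((2 : ℕ) : R.A)}) + ((h2E ρ : ℕ∞) : WithBot ℕ∞) :=
  Thm.partA k G n hn ρ hcont hirr hZ1 ι c hc hc1 hinj hloc R ρu hu

end Pool.Agent.Results.MP_aa8fd2_nt.InvolutionBound
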