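import Pool.Agent.Helper3.DB.StmB
import Pool.Agent.Helper3.DB.ThmB

/-!
# Mazur's dimension conjecture at `p = 2` fails at every unbalanced complex conjugation

Let `F` be a number field, `n` odd, `k` a finite field of characteristic 2 and `ρ₀ : G_{F,S₀} → GL_n(k)` continuous and
absolutely irreducible. For all large finite `S` let `ρ` be the inflation of `ρ₀` to `G_{F,S}`, `R` its universal
deformation ring, `h^i = dim H^i(G_{F,S}, Ad ρ)` (continuous cohomology, defined by locally constant cocycles), `c_v` the
complex conjugation at a real place `v` and `r_v = rank (ρ(c_v) - 1) ≤ (n-1)/2`. Then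
`δ(ρ) = 1 + r₂ n² + ∑_v 2 r_v (n - r_v)`, and
`dim R/2R ≥ h¹ - h² + ∑_v ((n²-1)/2 - 2 r_v (n - r_v))`.
So `dim R/2R ≥ 1 + r₂ n² + r₁ (n²-1)/2` if `h¹ - h² = δ(ρ)` (Tate's formula, listed as known in the problem file; a
hypothesis here), and this is larger than `δ(ρ)` as soon as one complex conjugation is unbalanced (`r_v < (n-1)/2`).

Proof. `2 r (n - r)` is the dimension of the conjugacy class of `ρ(c_v)`, which is what the numbers `h¹, h²` count, and
`(n²-1)/2` is the dimension of the scheme of all involutions `X² = 1`, at each of its points. For the complete local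
ring `T = k[[X_v, x_1, …, x_z]] / ((ρ(c_v) + X_v)² = 1)`, `z = dim` of the relative tangent space, a minimal ideal `J`
for which there is a lift `G → GL_n(T/J)` with `c_v ↦ ρ(c_v) + X_v` is generated by `dim H²(G, {c_v}; Ad ρ)` elements;
`T/J` is generated over the image of `R` by `n² - 1` elements; `dim T` is computed by an explicit chain of prime ideals.
This needs `H²(G, Ad ρ) → ⨁_v H²(⟨c_v⟩, Ad ρ)` to be surjective; for large `S` this is proved here by cup products
of the character of `√-1` with corestrictions of quadratic characters attached to elements with prescribed signs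
(for every `S` containing the places above 2 it would follow from Poitou-Tate duality). The bound for arbitrary
profinite groups is the hand-in `InvolutionBound`.

The library has one residual representation over `ℚ(√5)`, `n = 3` (all `S' ⊇ S`, `dim R/2R ≥ 2`, `δ = 1`).

Authors: helper3 (statements, assembly, TAN, KUM, HYP), helpers 11 (SEC, COR), 15, 27, 30 (OB1, FI1), 40 (Z1F, DEL),
55 (OB2), 61 (SCH), 63 (CHN, TDIM), 67 (CNT, FI3), 71 (SGN, CEN), 74, 84 (TRING, FI2), 90, 91 (LIM, ZORN), 95 (NAK); the
definitions of the problem and the existence of `R` are from the library (`MZ`, `MZEX`).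
-/

set_option autoImplicit false

namespace Pool.Agent.Results.MP_aa8fd2_nt.UnbalancedInvolutions

open Pool.Agent.Helper3.DB IsLocalRing MZ NumberField IsDedekindDomain

/-- **Mazur's dimension conjecture at `p = 2` fails at every unbalanced complex conjugation.** -/
theorem result (F Ω : Type) [Field F] [NumberField F] [Field Ω] [Algebra F Ω] [IsAlgClosure F Ω]
    (S₀ : Set (HeightOneSpectrum (𝓞 F))) (hS₀ : S₀.Finite)
    (h2 : ∀ v : HeightOneSpectrum (𝓞 F), (2 : 𝓞 F) ∈ v.asIdeal → v ∈ S₀)
    (k : Type) [Field k] [Finite k] [CharP k 2] (n : ℕ) (hn : Odd n) (ρ₀ : GFS Ω S₀ →* GL (Fin n) k)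
    (hcont : IsOpen (ρ₀.ker : Set (GFS Ω S₀))) (hirr : AbsIrred ρ₀) :
    ∃ S₁ : Set (HeightOneSpectrum (𝓞 F)), S₁.Finite ∧ S₀ ⊆ S₁ ∧
      ∀ S : Set (HeightOneSpectrum (𝓞 F)), S.Finite → S₁ ⊆ S →
        (∃ ρ : GFS Ω S →* GL (Fin n) k, IsInfl ρ₀ ρ) ∧
        ∀ ρ : GFS Ω S →* GL (Fin n) k, IsInfl ρ₀ ρ →
        ∀ w : InfinitePlace F → InfinitePlace (FSmax S : IntermediateField F Ω),
          (∀ v : InfinitePlace F, (w v).comap (algebraMap F (FSmax S : IntermediateField F Ω)) = v) →
          IsDatum F Ω S 2 k n ρ w ∧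
          ∃ c : {v : InfinitePlace F // v.IsReal} → GFS Ω S, IsCC S w c ∧ Bounds S ρ w c :=
  ThmB.main F Ω S₀ hS₀ h2 k n hn ρ₀ hcont hirr

end Pool.Agent.Results.MP_aa8fd2_nt.UnbalancedInvolutions
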